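import Pool.Agent.Lib.MP_59216f_co.GTop

set_option autoImplicit false

namespace Pool.Agent.Results.MP_59216f_co.MinDegreeThree

/-- Every finite graph of minimum degree at least three (connected or not) has a total
dominating set `S` with at most half of the vertices and a dominating set `D` disjoint from
`S`. -/
theorem result :
    ∀ (V : Type) [Fintype V] [DecidableEq V] (G : SimpleGraph V) [DecidableRel G.Adj],
      (∀ v : V, 3 ≤ G.degree v) →
      ∃ S D : Finset V,
        (∀ v : V, ∃ u ∈ S, G.Adj v u) ∧
        2 * S.card ≤ Fintype.card V ∧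
        Disjoint S D ∧
        (∀ v : V, v ∈ D ∨ ∃ u ∈ D, G.Adj v u) := by
  intro V _ _ G _ h
  exact Pool.Agent.Lib.MP_59216f_co.TD.graph_main G h

end Pool.Agent.Results.MP_59216f_co.MinDegreeThree
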